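import Mathlib
import Pool.Agent.V1154.ArborGF
import Pool.Agent.V1154.ArborWords

/-!
# The h*-polynomial of arbor polytopes
-/

set_option autoImplicit false

namespace Pool.Agent.Results.MP_edc851_co.HStarIdentity

open Finset PowerSeries
open scoped Pointwise
open Pool.Agent.V1154.ArborGF Pool.Agent.V1154.ArborWords

/-- An arbor of size `n`: a rooted tree (given by its vertex set, its root and the parent
function, every vertex reaching the root) together with the assignment of the elements of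
`{1, …, n}` to the vertices, every vertex receiving a nonempty block. -/
structure Arbor (n : ℕ) where
  V : Type
  root : V
  parent : V → V
  parent_root : parent root = root
  reach : ∀ v, ∃ k : ℕ, parent^[k] v = root
  block : Fin n → V
  block_surj : Function.Surjective block

/-- The union of the blocks of `v` and of all its descendants. -/
noncomputable def Arbor.D {n : ℕ} (τ : Arbor n) (v : τ.V) : Finset (Fin n) := by
  classical exact Finset.univ.filter fun i => ∃ k : ℕ, τ.parent^[k] (τ.block i) = v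

/-- The arbor polytope. -/
def Arbor.Q {n : ℕ} (τ : Arbor n) : Set (Fin n → ℝ) :=
  {x | (∀ i, 0 ≤ x i) ∧ ∀ v : τ.V, ∑ i ∈ τ.D v, x i ≤ ((τ.D v).card : ℝ)}

/-- The number of lattice points of the dilate `m Q`. -/
noncomputable def Arbor.Ehr {n : ℕ} (τ : Arbor n) (m : ℕ) : ℕ :=
  Nat.card {z : Fin n → ℤ // (fun i => (z i : ℝ)) ∈ (m : ℝ) • τ.Q}

/-- The words with at least `|D v|` letters in `D v`, for every vertex `v`. -/
noncomputable def Arbor.W {n : ℕ} (τ : Arbor n) : Finset (Fin n → Fin n) := by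
  classical exact Finset.univ.filter fun w =>
    ∀ v : τ.V, (τ.D v).card ≤ (Finset.univ.filter fun j => w j ∈ τ.D v).card

/-- The number of descents of a word. -/
def des {n : ℕ} (w : Fin n → Fin n) : ℕ :=
  (Finset.univ.filter fun i : Fin n => ∃ h : (i : ℕ) + 1 < n, w ⟨(i : ℕ) + 1, h⟩ < w i).card

/-! ### The laminar family -/

variable {n : ℕ}

theorem mem_D (τ : Arbor n) (v : τ.V) (i : Fin n) :
    i ∈ τ.D v ↔ ∃ k : ℕ, τ.parent^[k] (τ.block i) = v := by
  classical
  unfold Arbor.D
  simp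

/-- the family of all sets `D v` -/
noncomputable def fam (τ : Arbor n) : Finset (Finset (Fin n)) := by
  classical exact Finset.univ.filter fun S => ∃ v, τ.D v = S

theorem mem_fam (τ : Arbor n) (S : Finset (Fin n)) : S ∈ fam τ ↔ ∃ v, τ.D v = S := by
  classical
  unfold fam
  simp

theorem D_root (τ : Arbor n) : τ.D τ.root = Finset.univ := by
  ext i
  rw [mem_D]
  simp only [Finset.mem_univ, iff_true]
  exact τ.reach _

theorem fam_laminar (τ : Arbor n) : ∀ S ∈ fam τ, ∀ S' ∈ fam τ, S ⊆ S' ∨ S' ⊆ S ∨ Disjoint S S' := by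
  intro S hS S' hS'
  obtain ⟨v, rfl⟩ := (mem_fam τ S).1 hS
  obtain ⟨v', rfl⟩ := (mem_fam τ S').1 hS'
  by_cases h : Disjoint (τ.D v) (τ.D v')
  · exact Or.inr (Or.inr h)
  · rw [Finset.not_disjoint_iff] at h
    obtain ⟨i, hi, hi'⟩ := h
    rw [mem_D] at hi hi'
    obtain ⟨a, ha⟩ := hi
    obtain ⟨b, hb⟩ := hi'
    have key : ∀ {a b : ℕ} {v v' : τ.V}, a ≤ b → τ.parent^[a] (τ.block i) = v →
        τ.parent^[b] (τ.block i) = v' → τ.D v ⊆ τ.D v' := by
      intro a b v v' hab ha hb j hj
      rw [mem_D] at hj ⊢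
      obtain ⟨c, hc⟩ := hj
      refine ⟨(b - a) + c, ?_⟩
      rw [Function.iterate_add_apply, hc, ← ha, ← Function.iterate_add_apply, ← hb]
      congr 1
      congr 1
      omega
    rcases le_total a b with hab | hab
    · exact Or.inl (key hab ha hb)
    · exact Or.inr (Or.inl (key hab hb ha))

theorem fam_nonempty (τ : Arbor n) : ∀ S ∈ fam τ, S.Nonempty := by
  intro S hS
  obtain ⟨v, rfl⟩ := (mem_fam τ S).1 hS
  obtain ⟨i, hi⟩ := τ.block_surj v
  exact ⟨i, (mem_D τ v i).2 ⟨0, hi⟩⟩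

theorem forall_fam (τ : Arbor n) (p : Finset (Fin n) → Prop) :
    (∀ S ∈ fam τ, p S) ↔ ∀ v, p (τ.D v) := by
  constructor
  · intro h v
    exact h _ ((mem_fam τ _).2 ⟨v, rfl⟩)
  · intro h S hS
    obtain ⟨v, rfl⟩ := (mem_fam τ S).1 hS
    exact h v

/-! ### Lattice points -/

theorem mem_smul_Q (τ : Arbor n) (m : ℕ) (x : Fin n → ℝ) :
    x ∈ (m : ℝ) • τ.Q ↔ (∀ i, 0 ≤ x i) ∧ ∀ v, ∑ i ∈ τ.D v, x i ≤ (m : ℝ) * ((τ.D v).card : ℝ) := by
  rcases Nat.eq_zero_or_pos m with rfl | hm
  · have h0 : (0 : Fin n → ℝ) ∈ τ.Q := ⟨fun i => le_rfl, fun v => by simp⟩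
    rw [Nat.cast_zero, Set.zero_smul_set ⟨0, h0⟩, Set.mem_zero]
    constructor
    · rintro rfl
      simp
    · rintro ⟨h1, h2⟩
      have h3 := h2 τ.root
      rw [D_root, zero_mul] at h3
      have h4 : ∑ i, x i = 0 := le_antisymm h3 (Finset.sum_nonneg fun i _ => h1 i)
      funext i
      exact (Finset.sum_eq_zero_iff_of_nonneg (fun i _ => h1 i)).1 h4 i (Finset.mem_univ i)
  · have hm' : (0 : ℝ) < m := by exact_mod_cast hm
    rw [Set.mem_smul_set_iff_inv_smul_mem₀ hm'.ne']
    constructor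
    · rintro ⟨h1, h2⟩
      refine ⟨fun i => ?_, fun v => ?_⟩
      · have := h1 i
        rw [Pi.smul_apply, smul_eq_mul] at this
        exact (mul_nonneg_iff_of_pos_left (inv_pos.2 hm')).1 this
      · have := h2 v
        simp only [Pi.smul_apply, smul_eq_mul] at this
        rw [← Finset.mul_sum, inv_mul_le_iff₀ hm'] at this
        exact this
    · rintro ⟨h1, h2⟩
      refine ⟨fun i => ?_, fun v => ?_⟩
      · rw [Pi.smul_apply, smul_eq_mul]
        exact mul_nonneg (inv_pos.2 hm').le (h1 i)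
      · simp only [Pi.smul_apply, smul_eq_mul]
        rw [← Finset.mul_sum, inv_mul_le_iff₀ hm']
        exact h2 v

theorem ehr_eq (τ : Arbor n) (m : ℕ) :
    (τ.Ehr m : ℤ) = ∑ s ∈ Finset.range (m * n + 1),
      coeff s (GF m (fun _ => 1) (Finset.univ : Finset (Fin n)) (fam τ)) := by
  classical
  have h1 : ∀ s, coeff s (GF m (fun _ => 1) (Finset.univ : Finset (Fin n)) (fam τ)) =
      ((conf m (Finset.univ : Finset (Fin n)) (fam τ) s).card : ℤ) := by
    intro s
    rw [coeff_GF]
    simp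
  simp only [h1]
  rw [← Nat.cast_sum, ← Finset.card_biUnion]
  · congr 1
    unfold Arbor.Ehr
    set L := (Finset.range (m * n + 1)).biUnion (conf m (Finset.univ : Finset (Fin n)) (fam τ))
      with hL
    have hset : {z : Fin n → ℤ | (fun i => (z i : ℝ)) ∈ (m : ℝ) • τ.Q} =
        (fun (x : Fin n → ℕ) (i : Fin n) => (x i : ℤ)) '' (L : Set (Fin n → ℕ)) := by
      ext z
      rw [Set.mem_ofPred_eq, mem_smul_Q]
      constructor
      · rintro ⟨hz1, hz2⟩
        have hz1' : ∀ i, 0 ≤ z i := fun i => by exact_mod_cast hz1 i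
        refine ⟨fun i => (z i).toNat, ?_, funext fun i => Int.toNat_of_nonneg (hz1' i)⟩
        have hsum : ∀ S : Finset (Fin n), ((∑ i ∈ S, (z i).toNat : ℕ) : ℤ) = ∑ i ∈ S, z i := by
          intro S
          push_cast
          exact Finset.sum_congr rfl fun i _ => by
            have := hz1' i
            omega
        have hz2' : ∀ v, ∑ i ∈ τ.D v, (z i).toNat ≤ m * (τ.D v).card := by
          intro v
          have := hz2 v
          have h3 : ∑ i ∈ τ.D v, z i ≤ (m : ℤ) * ((τ.D v).card : ℤ) := by exact_mod_cast this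
          have h4 := hsum (τ.D v)
          have h5 : ((∑ i ∈ τ.D v, (z i).toNat : ℕ) : ℤ) ≤ ((m * (τ.D v).card : ℕ) : ℤ) := by
            rw [h4]; push_cast; exact h3
          exact_mod_cast h5
        rw [hL, Finset.mem_coe, Finset.mem_biUnion]
        refine ⟨∑ i, (z i).toNat, ?_, ?_⟩
        · have := hz2' τ.root
          rw [D_root, Finset.card_univ, Fintype.card_fin] at this
          rw [Finset.mem_range]
          omega
        · rw [mem_conf]
          refine ⟨⟨rfl, fun i _ => Finset.mem_univ i⟩, ?_⟩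
          rw [forall_fam τ (fun S => ∑ i ∈ S, (z i).toNat ≤ m * S.card)]
          exact hz2'
      · rintro ⟨x, hx, rfl⟩
        rw [hL, Finset.mem_coe, Finset.mem_biUnion] at hx
        obtain ⟨s, -, hs⟩ := hx
        rw [mem_conf] at hs
        have h2 := (forall_fam τ (fun S => ∑ i ∈ S, x i ≤ m * S.card)).1 hs.2
        refine ⟨fun i => by positivity, fun v => ?_⟩
        have h3 := h2 v
        have h4 : ((∑ i ∈ τ.D v, x i : ℕ) : ℝ) ≤ ((m * (τ.D v).card : ℕ) : ℝ) := by
          exact_mod_cast h3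
        push_cast at h4 ⊢
        exact h4
    have hcard : Nat.card {z : Fin n → ℤ // (fun i => (z i : ℝ)) ∈ (m : ℝ) • τ.Q} =
        Set.ncard {z : Fin n → ℤ | (fun i => (z i : ℝ)) ∈ (m : ℝ) • τ.Q} := rfl
    rw [hcard, hset, Set.ncard_image_of_injective, Set.ncard_coe_finset]
    intro x y hxy
    funext i
    have h2 : ((x i : ℕ) : ℤ) = ((y i : ℕ) : ℤ) := congrFun hxy i
    exact_mod_cast h2
  · intro s _ s' _ hne
    rw [Function.onFun, Finset.disjoint_left]
    intro x hx hx'
    rw [mem_conf] at hx hx'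
    exact hne (hx.1.1.symm.trans hx'.1.1)

/-! ### Matrices and words -/

/-- the labelled positions, ordered by position and then by decreasing label -/
abbrev Lam (n M : ℕ) : Type := Fin M ×ₗ (Fin n)ᵒᵈ

/-- matrices given by rows -/
noncomputable def rowEquiv (n M : ℕ) : Finset (Lam n M) ≃ (Fin n → Finset (Fin M)) where
  toFun A := fun i => Finset.univ.filter fun f => toLex (f, OrderDual.toDual i) ∈ A
  invFun β := Finset.univ.filter fun p => (ofLex p).1 ∈ β (OrderDual.ofDual (ofLex p).2)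
  left_inv A := by
    ext p
    simp
  right_inv β := by
    funext i
    ext f
    simp

theorem card_row (n M : ℕ) (A : Finset (Lam n M)) (S : Finset (Fin n)) :
    (A.filter fun p => OrderDual.ofDual (ofLex p).2 ∈ S).card =
      ∑ i ∈ S, (rowEquiv n M A i).card := by
  classical
  have h := Finset.card_eq_sum_card_fiberwise (f := fun p : Lam n M => OrderDual.ofDual (ofLex p).2)
    (s := A.filter fun p => OrderDual.ofDual (ofLex p).2 ∈ S) (t := S)
    (fun p hp => (Finset.mem_filter.1 hp).2)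
  rw [h]
  apply Finset.sum_congr rfl
  intro i hi
  refine Finset.card_bij' (fun p _ => (ofLex p).1) (fun f _ => toLex (f, OrderDual.toDual i))
    ?_ ?_ ?_ ?_
  · intro p hp
    simp only [Finset.mem_filter] at hp
    obtain ⟨⟨hp1, hp2⟩, hp3⟩ := hp
    simp only [rowEquiv, Equiv.coe_fn_mk, Finset.mem_filter, Finset.mem_univ, true_and]
    have : toLex ((ofLex p).1, OrderDual.toDual i) = p := by
      rw [← hp3]; rfl
    rw [this]; exact hp1
  · intro f hf
    simp only [rowEquiv, Equiv.coe_fn_mk, Finset.mem_filter, Finset.mem_univ, true_and] at hf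
    simp only [Finset.mem_filter]
    exact ⟨⟨hf, hi⟩, rfl⟩
  · intro p hp
    simp only [Finset.mem_filter] at hp
    rw [← hp.2]; rfl
  · intro f hf
    rfl

theorem coeff_H (τ : Arbor n) (m : ℕ) :
    coeff (m * n) (GF m (fun j => (((m + 1).choose j : ℕ) : ℤ)) (Finset.univ : Finset (Fin n))
      (fam τ)) =
      (Nat.card {β : Fin n → Finset (Fin (m + 1)) // ∑ i, (β i).card = m * n ∧
        ∀ v, ∑ i ∈ τ.D v, (β i).card ≤ m * (τ.D v).card} : ℤ) := by
  classical
  rw [coeff_GF, Nat.card_eq_fintype_card, Fintype.card_subtype]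
  have h := Finset.card_eq_sum_card_fiberwise
    (f := fun β : Fin n → Finset (Fin (m + 1)) => fun i => (β i).card)
    (s := Finset.univ.filter fun β : Fin n → Finset (Fin (m + 1)) =>
      ∑ i, (β i).card = m * n ∧ ∀ v, ∑ i ∈ τ.D v, (β i).card ≤ m * (τ.D v).card)
    (t := conf m (Finset.univ : Finset (Fin n)) (fam τ) (m * n)) (by
      intro β hβ
      simp only [Finset.coe_filter, Finset.mem_univ, true_and, Set.mem_ofPred_eq] at hβ
      rw [Finset.mem_coe, mem_conf]
      refine ⟨⟨hβ.1, fun i _ => Finset.mem_univ i⟩, ?_⟩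
      exact (forall_fam τ (fun S => ∑ i ∈ S, (β i).card ≤ m * S.card)).2 hβ.2)
  rw [h]
  push_cast
  apply Finset.sum_congr rfl
  intro x hx
  rw [mem_conf] at hx
  have h2 := (forall_fam τ (fun S => ∑ i ∈ S, x i ≤ m * S.card)).1 hx.2
  have h3 : (Finset.univ.filter fun β : Fin n → Finset (Fin (m + 1)) =>
      ∑ i, (β i).card = m * n ∧ ∀ v, ∑ i ∈ τ.D v, (β i).card ≤ m * (τ.D v).card).filter
      (fun β => (fun i => (β i).card) = x) =
      Fintype.piFinset (fun i => Finset.powersetCard (x i) Finset.univ) := by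
    ext β
    simp only [Finset.mem_filter, Finset.mem_univ, true_and, Fintype.mem_piFinset,
      Finset.mem_powersetCard, Finset.subset_univ]
    constructor
    · rintro ⟨-, rfl⟩ i
      rfl
    · intro hβ
      have : (fun i => (β i).card) = x := funext hβ
      subst this
      exact ⟨⟨hx.1.1, h2⟩, rfl⟩
  rw [h3, Fintype.card_piFinset]
  push_cast
  apply Finset.prod_congr rfl
  intro i _
  rw [Finset.card_powersetCard, Finset.card_univ, Fintype.card_fin]

theorem compl_card (τ : Arbor n) (m : ℕ) :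
    Nat.card {β : Fin n → Finset (Fin (m + 1)) // ∑ i, (β i).card = m * n ∧
        ∀ v, ∑ i ∈ τ.D v, (β i).card ≤ m * (τ.D v).card} =
    Nat.card {β : Fin n → Finset (Fin (m + 1)) // ∑ i, (β i).card = n ∧
        ∀ v, (τ.D v).card ≤ ∑ i ∈ τ.D v, (β i).card} := by
  classical
  apply Nat.card_congr
  refine Equiv.subtypeEquiv (compl_involutive.toPerm (compl : (Fin n → Finset (Fin (m + 1))) → _))
    ?_
  intro β
  have key : ∀ S : Finset (Fin n), ∑ i ∈ S, ((βᶜ) i).card + ∑ i ∈ S, (β i).card =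
      (m + 1) * S.card := by
    intro S
    rw [← Finset.sum_add_distrib]
    have : ∀ i ∈ S, ((βᶜ) i).card + (β i).card = m + 1 := by
      intro i _
      rw [Pi.compl_apply, Finset.card_compl, Fintype.card_fin]
      have := Finset.card_le_univ (β i)
      rw [Fintype.card_fin] at this
      omega
    rw [Finset.sum_congr rfl this, Finset.sum_const, smul_eq_mul, mul_comm]
  have hu := key Finset.univ
  rw [Finset.card_univ, Fintype.card_fin] at hu
  show _ ↔ (∑ i, ((βᶜ) i).card = n ∧ ∀ v, (τ.D v).card ≤ ∑ i ∈ τ.D v, ((βᶜ) i).card)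
  have e1 : (m + 1) * n = m * n + n := by ring
  constructor
  · rintro ⟨h1, h2⟩
    refine ⟨by omega, fun v => ?_⟩
    have h3 := key (τ.D v)
    have h4 := h2 v
    have e2 : (m + 1) * (τ.D v).card = m * (τ.D v).card + (τ.D v).card := by ring
    omega
  · rintro ⟨h1, h2⟩
    refine ⟨by omega, fun v => ?_⟩
    have h3 := key (τ.D v)
    have h4 := h2 v
    have e2 : (m + 1) * (τ.D v).card = m * (τ.D v).card + (τ.D v).card := by ring
    omega

/-- the word of a labelled sequence -/
def wordOf {n M : ℕ} (g : Fin n → Lam n M) : Fin n → Fin n :=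
  fun j => OrderDual.ofDual (ofLex (g j)).2

theorem mem_W (τ : Arbor n) (w : Fin n → Fin n) :
    w ∈ τ.W ↔ ∀ v, (τ.D v).card ≤ (Finset.univ.filter fun j => w j ∈ τ.D v).card := by
  classical
  unfold Arbor.W
  simp

theorem matrices_eq (τ : Arbor n) (m : ℕ) :
    Nat.card {β : Fin n → Finset (Fin (m + 1)) // ∑ i, (β i).card = n ∧
        ∀ v, (τ.D v).card ≤ ∑ i ∈ τ.D v, (β i).card} =
    Nat.card {g : Fin n → Lam n (m + 1) // StrictMono g ∧ wordOf g ∈ τ.W} := by
  classical
  have h1 : Nat.card {A : Finset (Lam n (m + 1)) // A.card = n ∧ ∀ v, (τ.D v).card ≤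
      (A.filter fun p => OrderDual.ofDual (ofLex p).2 ∈ τ.D v).card} =
      Nat.card {β : Fin n → Finset (Fin (m + 1)) // ∑ i, (β i).card = n ∧
        ∀ v, (τ.D v).card ≤ ∑ i ∈ τ.D v, (β i).card} := by
    apply Nat.card_congr
    refine Equiv.subtypeEquiv (rowEquiv n (m + 1)) ?_
    intro A
    have hA : A.card = ∑ i, (rowEquiv n (m + 1) A i).card := by
      rw [← card_row]
      congr 1
      ext p
      simp
    rw [hA]
    simp only [card_row]
  rw [← h1, ← Pool.Agent.V1154.ArborWords.card_strictMono]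
  apply Nat.card_congr
  apply Equiv.subtypeEquivRight
  intro g
  apply and_congr_right
  intro hg
  rw [mem_W]
  apply forall_congr'
  intro v
  have : ((Finset.univ.image g).filter fun p => OrderDual.ofDual (ofLex p).2 ∈ τ.D v).card =
      (Finset.univ.filter fun j => wordOf g j ∈ τ.D v).card := by
    rw [Finset.filter_image, Finset.card_image_of_injective _ hg.injective]
    rfl
  rw [this]

theorem chain_iff {k M : ℕ} (f : Fin (k + 1) → Fin M) (w : Fin (k + 1) → Fin (k + 1)) :
    StrictMono (fun j => (toLex (f j, OrderDual.toDual (w j)) : Lam (k + 1) M)) ↔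
      ∀ i : Fin k, (w i.succ < w i.castSucc ∧ f i.castSucc ≤ f i.succ) ∨
        f i.castSucc < f i.succ := by
  rw [Fin.strictMono_iff_lt_succ]
  apply forall_congr'
  intro i
  rw [Prod.Lex.toLex_lt_toLex]
  simp only [OrderDual.toDual_lt_toDual]
  constructor
  · rintro (h | ⟨h1, h2⟩)
    · exact Or.inr h
    · exact Or.inl ⟨h2, h1.le⟩
  · rintro (⟨h1, h2⟩ | h)
    · rcases h2.lt_or_eq with h3 | h3
      · exact Or.inl h3
      · exact Or.inr ⟨h3, h1⟩
    · exact Or.inl h

theorem des_eq {k : ℕ} (w : Fin (k + 1) → Fin (k + 1)) :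
    des w = (Finset.univ.filter fun i : Fin k => w i.succ < w i.castSucc).card := by
  classical
  unfold des
  symm
  rw [← Finset.card_image_of_injective _ (Fin.castSucc_injective k)]
  congr 1
  ext i
  simp only [Finset.mem_image, Finset.mem_filter, Finset.mem_univ, true_and]
  constructor
  · rintro ⟨j, hj, rfl⟩
    exact ⟨by simp, hj⟩
  · rintro ⟨h, h2⟩
    exact ⟨⟨i, by omega⟩, h2, rfl⟩

theorem words_sum {k : ℕ} (τ : Arbor (k + 1)) (m : ℕ) :
    Nat.card {g : Fin (k + 1) → Lam (k + 1) (m + 1) // StrictMono g ∧ wordOf g ∈ τ.W} =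
      ∑ w ∈ τ.W, (m + 1 + des w).choose (k + 1) := by
  classical
  have h1 : Nat.card {g : Fin (k + 1) → Lam (k + 1) (m + 1) // StrictMono g ∧ wordOf g ∈ τ.W} =
      Nat.card (Σ w : {w // w ∈ τ.W}, {f : Fin (k + 1) → Fin (m + 1) //
        ∀ i : Fin k, (w.1 i.succ < w.1 i.castSucc ∧ f i.castSucc ≤ f i.succ) ∨
          f i.castSucc < f i.succ}) := by
    apply Nat.card_congr
    refine
      { toFun := fun g => ⟨⟨wordOf g.1, g.2.2⟩, ⟨fun j => (ofLex (g.1 j)).1, ?_⟩⟩
        invFun := fun p => ⟨fun j => toLex (p.2.1 j, OrderDual.toDual (p.1.1 j)), ?_, ?_⟩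
        left_inv := ?_
        right_inv := ?_ }
    · have := (chain_iff (fun j => (ofLex (g.1 j)).1) (wordOf g.1)).1 g.2.1
      exact this
    · exact (chain_iff p.2.1 p.1.1).2 p.2.2
    · exact p.1.2
    · rintro ⟨g, hg⟩
      rfl
    · rintro ⟨⟨w, hw⟩, ⟨f, hf⟩⟩
      rfl
  rw [h1, Nat.card_sigma]
  rw [Finset.sum_coe_sort τ.W (fun w => Nat.card {f : Fin (k + 1) → Fin (m + 1) //
        ∀ i : Fin k, (w i.succ < w i.castSucc ∧ f i.castSucc ≤ f i.succ) ∨
          f i.castSucc < f i.succ})]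
  apply Finset.sum_congr rfl
  intro w _
  rw [card_chain, des_eq]

theorem ehr_formula {k : ℕ} (τ : Arbor (k + 1)) (m : ℕ) :
    τ.Ehr m = ∑ w ∈ τ.W, (m + 1 + des w).choose (k + 1) := by
  have h1 := ehr_eq τ m
  have h2 := root_identity m (Finset.univ : Finset (Fin (k + 1))) (fam τ)
    ((mem_fam τ _).2 ⟨τ.root, D_root τ⟩) (fun D _ => Finset.subset_univ D) (fam_nonempty τ)
    (fam_laminar τ)
  rw [Finset.card_univ, Fintype.card_fin] at h2
  rw [← h2, coeff_H, compl_card, matrices_eq, words_sum] at h1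
  exact_mod_cast h1

theorem des_le {k : ℕ} (w : Fin (k + 1) → Fin (k + 1)) : des w ≤ k := by
  rw [des_eq]
  have := Finset.card_le_univ (Finset.univ.filter fun i : Fin k => w i.succ < w i.castSucc)
  rwa [Fintype.card_fin] at this

theorem series_word (k d : ℕ) (hd : d ≤ k) :
    (PowerSeries.mk fun m => (((m + 1 + d).choose (k + 1) : ℕ) : ℤ)) * (1 - X) ^ (k + 1 + 1) =
      X ^ (k - d) := by
  have h1 : (PowerSeries.mk fun m => (((m + 1 + d).choose (k + 1) : ℕ) : ℤ)) =
      X ^ (k - d) * (PowerSeries.mk fun m => (((k + 1 + m).choose (k + 1) : ℕ) : ℤ)) := by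
    ext m
    rw [coeff_mk, coeff_X_pow_mul', coeff_mk]
    split_ifs with h
    · congr 2
      omega
    · rw [Nat.choose_eq_zero_of_lt (by omega)]
      rfl
  have h2 : (PowerSeries.mk fun m => (((k + 1 + m).choose (k + 1) : ℕ) : ℤ)) *
      (1 - X) ^ (k + 1 + 1) = 1 := PowerSeries.mk_add_choose_mul_one_sub_pow_eq_one ℤ (k + 1)
  rw [h1, mul_assoc, h2, mul_one]

/-- The h*-polynomial of the arbor polytope: the Ehrhart series, multiplied by `(1 - X) ^ (n + 1)`,
is the polynomial `∑_{w ∈ W} X ^ (n - 1 - des w)`. -/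
theorem result (n : ℕ) (hn : 1 ≤ n) (τ : Arbor n) :
    (PowerSeries.mk fun m => (τ.Ehr m : ℤ)) * (1 - X) ^ (n + 1) =
      ((∑ w ∈ τ.W, Polynomial.X ^ (n - 1 - des w) : Polynomial ℤ) : ℤ⟦X⟧) := by
  obtain ⟨k, rfl⟩ : ∃ k, n = k + 1 := ⟨n - 1, by omega⟩
  have h1 : (PowerSeries.mk fun m => (τ.Ehr m : ℤ)) =
      ∑ w ∈ τ.W, PowerSeries.mk fun m => (((m + 1 + des w).choose (k + 1) : ℕ) : ℤ) := by
    ext m
    rw [map_sum, coeff_mk, ehr_formula]
    push_cast
    apply Finset.sum_congr rfl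
    intro w _
    rw [coeff_mk]
  rw [h1, Finset.sum_mul]
  have h2 : ((∑ w ∈ τ.W, Polynomial.X ^ (k + 1 - 1 - des w) : Polynomial ℤ) : ℤ⟦X⟧) =
      ∑ w ∈ τ.W, X ^ (k - des w) := by
    rw [← Polynomial.coeToPowerSeries.ringHom_apply, map_sum]
    apply Finset.sum_congr rfl
    intro w _
    rw [map_pow, Polynomial.coeToPowerSeries.ringHom_apply, Polynomial.coe_X]
    simp
  rw [h2]
  apply Finset.sum_congr rfl
  intro w _
  exact series_word k (des w) (des_le w)

end Pool.Agent.Results.MP_edc851_co.HStarIdentity
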